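import Pool.Agent.Q87.JQ.LamA

/-! # The mean number of the solutions: the contribution of one subspace -/

set_option autoImplicit false

namespace Pool.Agent.Q87.JQ

open Finset Module Q44.JQ
open Pool.Agent.Y703.CQ (prs)

open scoped Classical

section lam

variable {s V U ι : Type} [Fintype s] [AddCommGroup V] [Module (ZMod 2) V]
  [Fintype U] [Fintype ι] [LinearOrder ι]

theorem tt_le [Fintype V] (D : Dj s V) (b : Bk s U ι) (Q : Submodule (ZMod 2) (V × V) → Prop)
    (hQ : ∀ Λ, Q Λ → Nat.card Λ < Fintype.card V) :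
    |tt D b Q| ≤ n0 (s := s) (V := V) (U := U) (ι := ι) := by
  unfold tt n0
  refine (Finset.abs_sum_le_sum_abs _ _).trans (Finset.sum_le_sum fun e _ => ?_)
  refine (Finset.abs_sum_le_sum_abs _ _).trans (Finset.sum_le_sum fun W _ => ?_)
  by_cases h : e ∈ EU D b ∧ Q (dif (Zf e W))
  · rw [if_pos h, if_pos (hQ _ h.2), abs_sg]
  · rw [if_neg h, abs_zero]
    split_ifs <;> norm_num

theorem tt_big [Fintype V] (hORT : S_ORT) (D : Dj s V) (hs : D.Sym)
    (nd : ∀ x, (∀ y, D.ω x y = 0) → x = 0) (b : Bk s U ι) (Λ : Submodule (ZMod 2) (V × V))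
    (hΛ : ∀ z ∈ Λ, D.ω z.2 z.1 = 0) (hc : Fintype.card V < Nat.card Λ) :
    tt D b (fun M => M = Λ) = 0 := by
  unfold tt
  refine Finset.sum_eq_zero fun e _ => Finset.sum_eq_zero fun W _ => ?_
  rw [if_neg]
  rintro ⟨-, h⟩
  have h1 := (hORT V ι D.ω hs.alt nd (Zf e W) (fun i j => hΛ _ (by
    rw [← h]
    exact (dif_le (Zf e W) _).1 le_rfl i j))).2
  rw [h, Nat.card_eq_fintype_card (α := V)] at h1
  omega

/-- equality and inclusion of the span -/
theorem tt_sub [Fintype V] (D : Dj s V) (b : Bk s U ι) (Λ : Submodule (ZMod 2) (V × V))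
    (hc : Nat.card Λ = Fintype.card V) :
    |tt D b (fun M => M = Λ) - tt D b (fun M => M ≤ Λ)| ≤
      n0 (s := s) (V := V) (U := U) (ι := ι) := by
  have h1 : tt D b (fun M => M ≤ Λ) - tt D b (fun M => M = Λ) = tt D b (fun M => M < Λ) := by
    unfold tt
    rw [← Finset.sum_sub_distrib]
    refine Finset.sum_congr rfl fun e _ => ?_
    rw [← Finset.sum_sub_distrib]
    refine Finset.sum_congr rfl fun W _ => ?_
    by_cases a1 : e ∈ EU D b
    · by_cases a2 : dif (Zf e W) = Λ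
      · rw [if_pos ⟨a1, a2.le⟩, if_pos ⟨a1, a2⟩, if_neg (fun h => h.2.ne a2), sub_self]
      · by_cases a3 : dif (Zf e W) ≤ Λ
        · rw [if_pos ⟨a1, a3⟩, if_neg (fun h => a2 h.2), if_pos ⟨a1, lt_of_le_of_ne a3 a2⟩,
            sub_zero]
        · rw [if_neg (fun h => a3 h.2), if_neg (fun h => a2 h.2), if_neg (fun h => a3 h.2.le),
            sub_zero]
    · rw [if_neg (fun h => a1 h.1), if_neg (fun h => a1 h.1), if_neg (fun h => a1 h.1), sub_zero]
  rw [abs_sub_comm, h1]
  refine tt_le D b _ fun M hM => ?_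
  rw [← hc]
  have h2 : (M : Set (V × V)) ⊂ Λ := hM
  have h3 := Set.ncard_lt_ncard h2 (Set.toFinite _)
  rwa [← Nat.card_coe_set_eq, ← Nat.card_coe_set_eq] at h3

/-- the contribution of a graph -/
theorem tt_graph [Fintype V] [Nonempty ι] (hEU : S_EU) (hMAIN : S_MAIN) (D : Dj s V)
    (ρ : s → ZMod 2) (hD : D.Ok ρ)
    (b : Bk s U ι) (hb : b.Ok D.s₀ ρ 1) (S : V →ₗ[ZMod 2] V)
    (hS1 : ∀ φ x, S (D.T φ x) = D.T φ (S x)) (hS2 : ∀ x, D.ω (S x) x = 0)
    (hS3 : ∀ y ∈ D.𝓛, (D.tw S).q y = 0) :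
    tt D b (fun M => M ≤ S.graph) =
      (Fintype.card V : ℝ) * (Fintype.card V : ℝ) ^ Fintype.card ι := by
  have h1 : ∀ e : (s → V) × (U ⊕ ι → V), ∑ W : ι → V,
      (if e ∈ EU D b ∧ dif (Zf e W) ≤ S.graph then sg (Gx D b e W) else 0) =
      if e ∈ EU D b then (Fintype.card V : ℝ) else 0 := by
    intro e
    by_cases he : e ∈ EU D b
    · rw [if_pos he]
      have h2 : ∀ W : ι → V, (e ∈ EU D b ∧ dif (Zf e W) ≤ S.graph) ↔
          ∃ w : V, W = fun i => S (e.2 (Sum.inr i)) + w := by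
        intro W
        rw [dif_le]
        constructor
        · rintro ⟨-, h⟩
          obtain ⟨i₀⟩ := ‹Nonempty ι›
          refine ⟨W i₀ + S (e.2 (Sum.inr i₀)), ?_⟩
          funext i
          have h3 := h i i₀
          rw [LinearMap.mem_graph_iff] at h3
          have h4 : W i + W i₀ = S (e.2 (Sum.inr i)) + S (e.2 (Sum.inr i₀)) := by
            rw [← map_add]
            exact h3
          have h5 : W i = W i + W i₀ + W i₀ := by
            rw [add_assoc, self_add, add_zero]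
          rw [h5, h4]
          abel
        · rintro ⟨w, rfl⟩
          refine ⟨he, fun i j => ?_⟩
          rw [LinearMap.mem_graph_iff]
          change (S (e.2 (Sum.inr i)) + w) + (S (e.2 (Sum.inr j)) + w) =
            S (e.2 (Sum.inr i) + e.2 (Sum.inr j))
          rw [map_add]
          have h6 : S (e.2 (Sum.inr i)) + w + (S (e.2 (Sum.inr j)) + w) =
              S (e.2 (Sum.inr i)) + S (e.2 (Sum.inr j)) + (w + w) := by abel
          rw [h6, self_add, add_zero]
      simp only [h2]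
      rw [← Finset.sum_filter]
      have h7 : ∑ w : V, (1 : ℝ) = (Fintype.card V : ℝ) := by
        rw [Finset.sum_const, Finset.card_univ, nsmul_eq_mul, mul_one]
      rw [← h7]
      symm
      refine Finset.sum_bij (fun (w : V) _ => fun i => S (e.2 (Sum.inr i)) + w) ?_ ?_ ?_ ?_
      · intro w _
        exact mem_filter.2 ⟨mem_univ _, w, rfl⟩
      · intro w _ w' _ h
        obtain ⟨i₀⟩ := ‹Nonempty ι›
        exact add_left_cancel (congrFun h i₀)
      · intro W hW
        obtain ⟨w, rfl⟩ := (mem_filter.1 hW).2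
        exact ⟨w, mem_univ _, rfl⟩
      · intro w _
        have h8 := hMAIN s V U ι D ρ hD b hb S hS1 hS2 hS3 e he w
        have h9 : Gx D b e (fun i => S (e.2 (Sum.inr i)) + w) = 0 := h8
        rw [h9, sg_zero]
    · rw [if_neg he]
      refine Finset.sum_eq_zero fun W _ => ?_
      rw [if_neg (fun h => he h.1)]
  unfold tt
  simp only [h1]
  rw [← Finset.sum_filter, Finset.sum_const, nsmul_eq_mul, mul_comm]
  congr 1
  have h2 := hEU s V U ι D ρ hD b hb
  rw [Nat.card_eq_fintype_card (α := V)] at h2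
  have h3 : ((univ : Finset ((s → V) × (U ⊕ ι → V))).filter fun e => e ∈ EU D b).card =
      Nat.card (EU D b) := by
    rw [Nat.card_eq_fintype_card, ← Fintype.card_subtype]
  rw [h3, h2]
  push_cast
  rfl

/-- the contribution of a subspace which is not invariant -/
theorem tt_ninv [Fintype V] (hNINV : S_NINV) (D : Dj s V) (ρ : s → ZMod 2) (hD : D.Ok ρ)
    (b : Bk s U ι) (hb : b.Ok D.s₀ ρ 1) (Λ : Submodule (ZMod 2) (V × V))
    (hΛ : ∀ z ∈ Λ, D.ω z.2 z.1 = 0) (hc : Nat.card Λ = Fintype.card V)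
    (φ : s → ZMod 2) (hφ : φ D.s₀ = 0) (hex : ∃ z ∈ Λ, (D.T φ z.1, D.T φ z.2) ∉ Λ) :
    |tt D b (fun M => M ≤ Λ)| ≤
      (Fintype.card V : ℝ) ^ (1 + Fintype.card s + Fintype.card U + Fintype.card ι) /
      2 ^ (univ.filter fun i => b.hJ i = φ).card := by
  have h1 := hNINV s V U ι D ρ hD b hb Λ hΛ hc φ hφ hex
  have h2 : tt D b (fun M => M ≤ Λ) = ∑ e : (s → V) × (U ⊕ ι → V), ∑ W : ι → V,
      if e ∈ EU D b ∧ (∀ i j, (e.2 (Sum.inr i) + e.2 (Sum.inr j), W i + W j) ∈ Λ) then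
        sg (∑ i, D.ω (W i) (rowL D (b.N D.s₀ 0) b.h e (Sum.inr i))) else 0 := by
    unfold tt
    refine Finset.sum_congr rfl fun e _ => Finset.sum_congr rfl fun W _ => ?_
    simp only [dif_le]
    rfl
  rw [h2]
  exact h1

end lam

end Pool.Agent.Q87.JQ
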