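import Pool.Agent.Q87.JQ.LamB

/-! # The mean number of the solutions -/

set_option autoImplicit false

namespace Pool.Agent.Q87.JQ

open Finset Module Q44.JQ
open Pool.Agent.Y703.CQ (prs)

open scoped Classical

theorem graph_card {V : Type} [AddCommGroup V] [Module (ZMod 2) V] [Fintype V]
    (S : V →ₗ[ZMod 2] V) : Nat.card S.graph = Fintype.card V := by
  rw [← Nat.card_eq_fintype_card]
  refine Nat.card_congr ⟨fun z => z.1.1, fun x => ⟨(x, S x), by
    rw [LinearMap.mem_graph_iff]⟩, fun z => ?_, fun x => rfl⟩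
  have h := z.2
  rw [LinearMap.mem_graph_iff] at h
  exact Subtype.ext (Prod.ext rfl h.symm)

theorem graph_inj {V : Type} [AddCommGroup V] [Module (ZMod 2) V] {S S' : V →ₗ[ZMod 2] V}
    (h : S.graph = S'.graph) : S = S' := by
  refine LinearMap.ext fun x => ?_
  have h1 : (x, S x) ∈ S.graph := by
    rw [LinearMap.mem_graph_iff]
  rw [h, LinearMap.mem_graph_iff] at h1
  exact h1

theorem graph_fst {V : Type} [AddCommGroup V] [Module (ZMod 2) V] (S : V →ₗ[ZMod 2] V) :
    S.graph.map (LinearMap.fst (ZMod 2) V V) = ⊤ := by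
  rw [eq_top_iff]
  intro x _
  rw [Submodule.mem_map]
  exact ⟨(x, S x), by rw [LinearMap.mem_graph_iff], rfl⟩

section lam

variable {s V U ι : Type} [Fintype s] [AddCommGroup V] [Module (ZMod 2) V]
  [Fintype U] [Fintype ι] [LinearOrder ι]

theorem t_LAM (hPROB : S_PROB) (hEU : S_EU) (hMAIN : S_MAIN) (hNINV : S_NINV) (hNMAX : S_NMAX)
    (hORT : S_ORT) : S_LAM := by
  intro s V _ _ _ _ D ρ hD Gm 𝒮 h𝒮 hΛ𝒮 ε hε
  have hVf : Fintype V := Fintype.ofFinite V
  set v : ℝ := (Fintype.card V : ℝ) with hv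
  have hv1 : 1 ≤ v := by
    rw [hv]
    exact_mod_cast Fintype.card_pos
  have hv0 : 0 < v := by linarith
  set n : ℝ := (Nat.card (Submodule (ZMod 2) (V × V)) : ℝ) with hn
  have hn0 : 0 ≤ n := Nat.cast_nonneg _
  set K : ℝ := n * (n + 1) * v ^ (Fintype.card s + 2) with hK
  have hK0 : 0 ≤ K := by positivity
  obtain ⟨R₀, hR₀⟩ := pow_unbounded_of_one_lt (max v (K / ε)) (one_lt_two : (1 : ℝ) < 2)
  refine ⟨R₀ + 1, by omega, ?_⟩
  set R : ℕ := R₀ + 1 with hR
  have hRv : v ≤ 2 ^ R := by
    have h1 := (le_max_left v (K / ε)).trans hR₀.le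
    rw [hR, pow_succ]
    have h2 : (0 : ℝ) < 2 ^ R₀ := by positivity
    linarith
  have hRK : K / 2 ^ R ≤ ε := by
    have h1 := (le_max_right v (K / ε)).trans hR₀.le
    rw [div_le_iff₀ hε] at h1
    rw [div_le_iff₀ (by positivity), hR, pow_succ]
    have h2 : 0 < 2 ^ R₀ * ε := by positivity
    linarith
  intro U ι _ _ _ b hb
  have hb1 : b.Ok D.s₀ ρ 1 := ⟨hb.rU, hb.rJ, hb.nd, fun φ => by
    refine le_trans ?_ (hb.many φ)
    exact Nat.mul_le_mul_right _ (by omega), hb.tot⟩
  have hmany : ∀ φ : s → ZMod 2, R * (Fintype.card U + 1) ≤ (univ.filter fun i => b.hJ i = φ).card :=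
    hb.many
  have hι : R * (Fintype.card U + 1) ≤ Fintype.card ι :=
    (hmany 0).trans (Finset.card_le_univ _)
  have hne : Nonempty ι := by
    rw [← Fintype.card_pos_iff]
    refine lt_of_lt_of_le ?_ hι
    positivity
  -- the sum
  obtain ⟨Q, hQ⟩ : ∃ Q : Submodule (ZMod 2) (V × V) → Prop,
    Q = fun Λ => (∀ z ∈ Λ, D.ω z.2 z.1 = 0) ∧ Gm (Λ.map (LinearMap.fst (ZMod 2) V V)) :=
    ⟨_, rfl⟩
  have hsum := cnt_sum hPROB hORT D hD.toSym hD.nd b Gm
  rw [← hQ] at hsum
  set N0 : ℝ := n0 (s := s) (V := V) (U := U) (ι := ι) with hN0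
  set N1 : ℝ := v ^ (1 + Fintype.card s + Fintype.card U + Fintype.card ι) /
    2 ^ (R * (Fintype.card U + 1)) with hN1
  have hN10 : 0 ≤ N1 := by positivity
  have hN00 : 0 ≤ N0 := by
    rw [hN0]
    unfold n0
    refine Finset.sum_nonneg fun e _ => Finset.sum_nonneg fun W _ => ?_
    split_ifs <;> norm_num
  set Γ : Finset (Submodule (ZMod 2) (V × V)) := 𝒮.image LinearMap.graph with hΓ
  have hone : ∀ Λ ∈ (univ : Finset (Submodule (ZMod 2) (V × V))).filter Q,
      |tt D b (fun M => M = Λ) - (if Λ ∈ Γ then v * v ^ Fintype.card ι else 0)| ≤ N0 + N1 := by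
    intro Λ hΛ
    have hq := (mem_filter.1 hΛ).2
    rw [hQ] at hq
    obtain ⟨q1, q2⟩ := hq
    by_cases hg : Λ ∈ Γ
    · rw [if_pos hg]
      obtain ⟨S, hS, rfl⟩ := mem_image.1 hg
      obtain ⟨a1, a2, a3, -⟩ := h𝒮 S hS
      have h1 := tt_sub D b S.graph (graph_card S)
      rw [tt_graph hEU hMAIN D ρ hD b hb1 S a1 a2 a3] at h1
      linarith
    · rw [if_neg hg, sub_zero]
      rcases lt_trichotomy (Nat.card Λ) (Fintype.card V) with hc | hc | hc
      · have h1 := tt_le D b (fun M => M = Λ) (fun M hM => by rw [hM]; exact hc)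
        linarith
      · have h1 := tt_sub D b Λ hc
        obtain ⟨φ, hφ, hex⟩ : ∃ φ : s → ZMod 2, φ D.s₀ = 0 ∧
            ∃ z ∈ Λ, (D.T φ z.1, D.T φ z.2) ∉ Λ := by
          by_contra hcon
          push Not at hcon
          obtain ⟨S, hS, hS'⟩ := hΛ𝒮 Λ q1 (by rw [hc, Nat.card_eq_fintype_card]) q2
            (fun φ hφ z hz => hcon φ hφ z hz)
          refine hg (mem_image.2 ⟨S, hS, ?_⟩)
          ext z
          rw [LinearMap.mem_graph_iff]
          exact (hS' z).symm
        have h2 := tt_ninv hNINV D ρ hD b hb1 Λ q1 hc φ hφ hex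
        have h3 : v ^ (1 + Fintype.card s + Fintype.card U + Fintype.card ι) /
            2 ^ (univ.filter fun i => b.hJ i = φ).card ≤ N1 := by
          rw [hN1]
          refine div_le_div_of_nonneg_left (by positivity) (by positivity) ?_
          exact pow_le_pow_right₀ (by norm_num) (hmany φ)
        have h4 : tt D b (fun M => M = Λ) = (tt D b (fun M => M = Λ) -
          tt D b (fun M => M ≤ Λ)) + tt D b (fun M => M ≤ Λ) := by ring
        rw [h4]
        refine (abs_add_le _ _).trans ?_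
        linarith
      · rw [tt_big hORT D hD.toSym hD.nd b Λ q1 hc, abs_zero]
        linarith
  have hΓsub : Γ ⊆ (univ : Finset (Submodule (ZMod 2) (V × V))).filter Q := by
    intro Λ hΛ
    obtain ⟨S, hS, rfl⟩ := mem_image.1 hΛ
    obtain ⟨a1, a2, a3, a4⟩ := h𝒮 S hS
    rw [mem_filter]
    refine ⟨mem_univ _, ?_⟩
    rw [hQ]
    refine ⟨fun z hz => ?_, ?_⟩
    · rw [LinearMap.mem_graph_iff] at hz
      rw [hz]
      exact a2 _
    · rw [graph_fst]
      exact a4
  have hΓc : Γ.card = 𝒮.card := Finset.card_image_of_injective _ fun S S' h => graph_inj h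
  have htot : |tt D b Q - (𝒮.card : ℝ) * (v * v ^ Fintype.card ι)| ≤ n * (N0 + N1) := by
    have h1 : (𝒮.card : ℝ) * (v * v ^ Fintype.card ι) =
        ∑ Λ ∈ (univ : Finset (Submodule (ZMod 2) (V × V))).filter Q,
          (if Λ ∈ Γ then v * v ^ Fintype.card ι else 0) := by
      rw [← Finset.sum_filter, Finset.filter_mem_eq_inter, Finset.inter_eq_right.2 hΓsub,
        Finset.sum_const, hΓc, nsmul_eq_mul]
    rw [tt_sum, h1, ← Finset.sum_sub_distrib]
    refine (Finset.abs_sum_le_sum_abs _ _).trans ?_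
    refine (Finset.sum_le_card_nsmul _ _ _ hone).trans ?_
    rw [nsmul_eq_mul]
    refine mul_le_mul_of_nonneg_right ?_ (by linarith)
    rw [hn, Nat.card_eq_fintype_card]
    exact_mod_cast Finset.card_le_univ _
  -- the error
  have herr : n * (N0 + N1) / v ^ Fintype.card ι ≤ ε := by
    have e0 := n0_le (s := s) (V := V) (U := U) (ι := ι) hNMAX
    rw [← hN0, ← hv, ← hn] at e0
    have e1 : N0 / v ^ Fintype.card ι ≤
        n * v ^ (Fintype.card s + 2) * (v ^ Fintype.card U / 2 ^ (R * (Fintype.card U + 1))) := by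
      rw [div_le_iff₀ (by positivity)]
      refine e0.trans ?_
      have e2 : v ^ Fintype.card s * (v ^ Fintype.card U * (n * v ^ 2 *
          (v / 2) ^ Fintype.card ι)) = n * v ^ (Fintype.card s + 2) *
            (v ^ Fintype.card U / 2 ^ Fintype.card ι) * v ^ Fintype.card ι := by
        rw [div_pow, pow_add]
        field_simp
      rw [e2]
      refine mul_le_mul_of_nonneg_right ?_ (by positivity)
      refine mul_le_mul_of_nonneg_left ?_ (by positivity)
      refine div_le_div_of_nonneg_left (by positivity) (by positivity) ?_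
      exact pow_le_pow_right₀ (by norm_num) hι
    have e3 : N1 / v ^ Fintype.card ι ≤
        v ^ (Fintype.card s + 2) * (v ^ Fintype.card U / 2 ^ (R * (Fintype.card U + 1))) := by
      have e4 : N1 / v ^ Fintype.card ι = v ^ (1 + Fintype.card s) *
          (v ^ Fintype.card U / 2 ^ (R * (Fintype.card U + 1))) := by
        rw [hN1, pow_add v (1 + Fintype.card s + Fintype.card U), pow_add v (1 + Fintype.card s)]
        field_simp
      rw [e4]
      refine mul_le_mul_of_nonneg_right ?_ (by positivity)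
      exact pow_le_pow_right₀ hv1 (by omega)
    have e5 : v ^ Fintype.card U / 2 ^ (R * (Fintype.card U + 1)) ≤ 1 / 2 ^ R := by
      have f1 : v ^ Fintype.card U ≤ (2 : ℝ) ^ (R * Fintype.card U) := by
        rw [pow_mul]
        exact pow_le_pow_left₀ hv0.le hRv _
      have f2 : (2 : ℝ) ^ (R * (Fintype.card U + 1)) = 2 ^ (R * Fintype.card U) * 2 ^ R := by
        rw [← pow_add, mul_add, mul_one]
      have f3 : (0 : ℝ) < 2 ^ (R * Fintype.card U) := by positivity
      have f4 : (0 : ℝ) < 2 ^ R := by positivity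
      rw [f2, div_le_div_iff₀ (mul_pos f3 f4) f4, one_mul]
      exact mul_le_mul_of_nonneg_right f1 f4.le
    have e6 : n * (N0 + N1) / v ^ Fintype.card ι =
        n * (N0 / v ^ Fintype.card ι + N1 / v ^ Fintype.card ι) := by ring
    rw [e6]
    have e7 : N0 / v ^ Fintype.card ι + N1 / v ^ Fintype.card ι ≤
        (n + 1) * v ^ (Fintype.card s + 2) * (1 / 2 ^ R) := by
      have e8 := mul_le_mul_of_nonneg_left e5
        (show 0 ≤ n * v ^ (Fintype.card s + 2) by positivity)
      have e9 := mul_le_mul_of_nonneg_left e5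
        (show 0 ≤ v ^ (Fintype.card s + 2) by positivity)
      linarith
    calc n * (N0 / v ^ Fintype.card ι + N1 / v ^ Fintype.card ι) ≤
          n * ((n + 1) * v ^ (Fintype.card s + 2) * (1 / 2 ^ R)) :=
          mul_le_mul_of_nonneg_left e7 hn0
      _ = K / 2 ^ R := by
          rw [hK]
          ring
      _ ≤ ε := hRK
  -- conclusion
  have hvι : 0 < v ^ Fintype.card ι := by positivity
  have h2p : (0 : ℝ) < 2 ^ (prs (univ : Finset ι)).card := by positivity
  have hfin : (∑ α : prs (univ : Finset ι) → ZMod 2, (cnt D b Gm α : ℝ)) /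
      2 ^ (prs (univ : Finset ι)).card - (Nat.card V : ℝ) * (𝒮.card : ℝ) =
      (tt D b Q - (𝒮.card : ℝ) * (v * v ^ Fintype.card ι)) / v ^ Fintype.card ι := by
    have hA : (∑ α : prs (univ : Finset ι) → ZMod 2, (cnt D b Gm α : ℝ)) =
        2 ^ (prs (univ : Finset ι)).card * tt D b Q / v ^ Fintype.card ι := by
      rw [eq_div_iff hvι.ne']
      exact hsum
    rw [Nat.card_eq_fintype_card, ← hv, hA]
    field_simp
  rw [hfin, abs_div, abs_of_pos hvι]
  exact (div_le_div_of_nonneg_right htot hvι.le).trans herr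

end lam

end Pool.Agent.Q87.JQ
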