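import Pool.Agent.Q87.JQ.NInvA

/-! # The mean number of the solutions: decomposition -/

set_option autoImplicit false

namespace Pool.Agent.Q87.JQ

open Finset Module Q44.JQ
open Pool.Agent.Y703.CQ (prs)

open scoped Classical

section lam

variable {s V U ι : Type} [Fintype s] [AddCommGroup V] [Module (ZMod 2) V]
  [Fintype U] [Fintype ι] [LinearOrder ι]

/-- the family of the pairs -/
def Zf (e : (s → V) × (U ⊕ ι → V)) (W : ι → V) : ι → V × V := fun i => (e.2 (Sum.inr i), W i)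

/-- the exponent -/
noncomputable def Gx (D : Dj s V) (b : Bk s U ι) (e : (s → V) × (U ⊕ ι → V)) (W : ι → V) :
    ZMod 2 := ∑ i, D.ω (W i) (rowL D (b.N D.s₀ 0) b.h e (Sum.inr i))

/-- the sum over the pairs such that the span of the differences has a property -/
noncomputable def tt [Fintype V] (D : Dj s V) (b : Bk s U ι)
    (Q : Submodule (ZMod 2) (V × V) → Prop) : ℝ :=
  ∑ e : (s → V) × (U ⊕ ι → V), ∑ W : ι → V,
    if e ∈ EU D b ∧ Q (dif (Zf e W)) then sg (Gx D b e W) else 0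

theorem mem_Sel (D : Dj s V) (b : Bk s U ι) (α : prs (univ : Finset ι) → ZMod 2)
    (e : (s → V) × (U ⊕ ι → V)) : e ∈ Sel D (b.N D.s₀ α) b.h ↔
      e ∈ EU D b ∧ ∀ i, rowL D (b.N D.s₀ α) b.h e (Sum.inr i) = 0 := by
  have hu : ∀ u, rowL D (b.N D.s₀ α) b.h e (Sum.inl u) = rowL D (b.N D.s₀ 0) b.h e (Sum.inl u) := by
    intro u
    have h1 : ∀ β : prs (univ : Finset ι) → ZMod 2, rowL D (b.N D.s₀ β) b.h e (Sum.inl u) =
        ∑ q, b.N D.s₀ β (Sum.inl u) q • (e.2 q + e.2 (Sum.inl u)) +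
          D.T (b.h (Sum.inl u)) (e.2 (Sum.inl u)) + ∑ t, b.h (Sum.inl u) t • e.1 t := fun _ => rfl
    rw [h1, h1]
    congr 2
    refine Finset.sum_congr rfl fun q _ => ?_
    rcases q with q | q <;> rfl
  unfold Sel EU
  rw [Submodule.mem_inf, Submodule.mem_inf, LinearMap.mem_ker, LinearMap.mem_ker]
  constructor
  · rintro ⟨h1, h2⟩
    refine ⟨⟨h1, ?_⟩, fun i => congrFun h2 (Sum.inr i)⟩
    funext u
    have h3 := congrFun h2 (Sum.inl u)
    rw [hu] at h3
    exact h3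
  · rintro ⟨⟨h1, h2⟩, h3⟩
    refine ⟨h1, ?_⟩
    funext p
    rcases p with u | i
    · rw [hu]
      exact congrFun h2 u
    · exact h3 i

omit [Fintype s] [Fintype U] [LinearOrder ι] [Fintype ι] in
theorem dif_le (Z : ι → V × V) (Λ : Submodule (ZMod 2) (V × V)) :
    dif Z ≤ Λ ↔ ∀ i j, Z i + Z j ∈ Λ := by
  unfold dif
  rw [Submodule.span_le]
  constructor
  · intro h i j
    exact h ⟨(i, j), rfl⟩
  · rintro h _ ⟨⟨i, j⟩, rfl⟩
    exact h i j

omit [Fintype s] [Fintype U] [LinearOrder ι] [Fintype ι] in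
theorem dif_map (Z : ι → V × V) :
    (dif Z).map (LinearMap.fst (ZMod 2) V V) = dif fun i => (Z i).1 := by
  unfold dif
  rw [Submodule.map_span]
  congr 1
  rw [← Set.range_comp]
  rfl

/-- the mean number of the solutions as a character sum -/
theorem cnt_sum [Fintype V] (hPROB : S_PROB) (hORT : S_ORT) (D : Dj s V) (hs : D.Sym)
    (nd : ∀ x, (∀ y, D.ω x y = 0) → x = 0) (b : Bk s U ι) (Gm : Submodule (ZMod 2) V → Prop) :
    (∑ α : prs (univ : Finset ι) → ZMod 2, (cnt D b Gm α : ℝ)) *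
        (Fintype.card V : ℝ) ^ Fintype.card ι =
      2 ^ (prs (univ : Finset ι)).card * tt D b (fun Λ => (∀ z ∈ Λ, D.ω z.2 z.1 = 0) ∧
        Gm (Λ.map (LinearMap.fst (ZMod 2) V V))) := by
  have h1 : ∀ α, (cnt D b Gm α : ℝ) = ∑ e : (s → V) × (U ⊕ ι → V),
      if e ∈ EU D b ∧ Gm (dif fun i => e.2 (Sum.inr i)) then
        (if ∀ i, rowL D (b.N D.s₀ α) b.h e (Sum.inr i) = 0 then (1 : ℝ) else 0) else 0 := by
    intro α
    unfold cnt
    rw [Nat.card_eq_fintype_card, Fintype.card_subtype, Finset.card_filter]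
    push_cast
    refine Finset.sum_congr rfl fun e _ => ?_
    rw [mem_Sel]
    by_cases a1 : e ∈ EU D b <;> by_cases a2 : Gm (dif fun i => e.2 (Sum.inr i)) <;>
      by_cases a3 : ∀ i, rowL D (b.N D.s₀ α) b.h e (Sum.inr i) = 0 <;> simp [a1, a2, a3]
  simp_rw [h1]
  rw [Finset.sum_comm, Finset.sum_mul]
  unfold tt
  rw [Finset.mul_sum]
  refine Finset.sum_congr rfl fun e _ => ?_
  have hQ : ∀ W : ι → V, ((∀ z ∈ dif (Zf e W), D.ω z.2 z.1 = 0) ∧
      Gm ((dif (Zf e W)).map (LinearMap.fst (ZMod 2) V V))) ↔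
      (∀ i j, D.ω (W i + W j) (e.2 (Sum.inr i) + e.2 (Sum.inr j)) = 0) ∧
        Gm (dif fun i => e.2 (Sum.inr i)) := by
    intro W
    rw [dif_map]
    refine and_congr ⟨fun h i j => ?_, fun h => ?_⟩ Iff.rfl
    · exact h (Zf e W i + Zf e W j) ((dif_le (Zf e W) _).1 le_rfl i j)
    · exact (hORT V ι D.ω hs.alt nd (Zf e W) h).1
  simp only [hQ]
  by_cases he : e ∈ EU D b ∧ Gm (dif fun i => e.2 (Sum.inr i))
  · simp only [if_pos he]
    have h2 : ∑ α : prs (univ : Finset ι) → ZMod 2,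
        (if ∀ i, rowL D (b.N D.s₀ α) b.h e (Sum.inr i) = 0 then (1 : ℝ) else 0) =
        (((univ : Finset (prs (univ : Finset ι) → ZMod 2)).filter fun α =>
          ∀ i, rowL D (b.N D.s₀ α) b.h e (Sum.inr i) = 0).card : ℝ) := by
      rw [Finset.card_filter]
      push_cast
      rfl
    rw [h2, hPROB s V U ι D hs nd b e]
    congr 1
    refine Finset.sum_congr rfl fun W _ => ?_
    by_cases h3 : ∀ i j, D.ω (W i + W j) (e.2 (Sum.inr i) + e.2 (Sum.inr j)) = 0
    · rw [if_pos h3, if_pos ⟨he.1, h3, he.2⟩]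
      rfl
    · rw [if_neg h3, if_neg (fun h => h3 h.2.1)]
  · simp only [if_neg he, Finset.sum_const_zero, zero_mul]
    have h2 : ∀ W : ι → V, ¬ (e ∈ EU D b ∧ (∀ i j, D.ω (W i + W j)
        (e.2 (Sum.inr i) + e.2 (Sum.inr j)) = 0) ∧ Gm (dif fun i => e.2 (Sum.inr i))) :=
      fun W h => he ⟨h.1, h.2.2⟩
    simp only [if_neg (h2 _), Finset.sum_const_zero, mul_zero]

/-- decomposition according to the span -/
theorem tt_sum [Fintype V] (D : Dj s V) (b : Bk s U ι)
    (Q : Submodule (ZMod 2) (V × V) → Prop) :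
    tt D b Q = ∑ Λ ∈ (univ : Finset (Submodule (ZMod 2) (V × V))).filter Q, tt D b (fun M => M = Λ) := by
  unfold tt
  symm
  rw [Finset.sum_comm]
  refine Finset.sum_congr rfl fun e _ => ?_
  rw [Finset.sum_comm]
  refine Finset.sum_congr rfl fun W _ => ?_
  symm
  by_cases h1 : e ∈ EU D b
  · by_cases h2 : Q (dif (Zf e W))
    · rw [if_pos ⟨h1, h2⟩, Finset.sum_eq_single (dif (Zf e W))]
      · rw [if_pos ⟨h1, rfl⟩]
      · intro Λ _ hne
        rw [if_neg (fun h => hne h.2.symm)]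
      · intro h
        exact absurd (mem_filter.2 ⟨mem_univ _, h2⟩) h
    · rw [if_neg (fun h => h2 h.2)]
      symm
      refine Finset.sum_eq_zero fun Λ hΛ => ?_
      rw [if_neg]
      rintro ⟨-, rfl⟩
      exact h2 (mem_filter.1 hΛ).2
  · rw [if_neg (fun h => h1 h.1)]
    symm
    refine Finset.sum_eq_zero fun Λ _ => ?_
    rw [if_neg (fun h => h1 h.1)]

/-- the number of the pairs with small span -/
noncomputable def n0 [Fintype V] : ℝ :=
  ∑ e : (s → V) × (U ⊕ ι → V), ∑ W : ι → V,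
    if Nat.card (dif (Zf e W)) < Fintype.card V then (1 : ℝ) else 0

theorem n0_le [Fintype V] (hNMAX : S_NMAX) : n0 (s := s) (V := V) (U := U) (ι := ι) ≤
    (Fintype.card V : ℝ) ^ Fintype.card s * ((Fintype.card V : ℝ) ^ Fintype.card U *
      ((Nat.card (Submodule (ZMod 2) (V × V)) : ℝ) * (Fintype.card V : ℝ) ^ 2 *
        ((Fintype.card V : ℝ) / 2) ^ Fintype.card ι)) := by
  unfold n0
  rw [sum_split]
  have h1 : ∀ (δ : s → V) (y : U → V), ∑ Z : ι → V × V,
      (if Nat.card (dif (Zf ((δ, Sum.elim y (fun i => (Z i).1)) :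
        (s → V) × (U ⊕ ι → V)) (fun i => (Z i).2))) < Fintype.card V then (1 : ℝ) else 0) ≤
      (Nat.card (Submodule (ZMod 2) (V × V)) : ℝ) * (Fintype.card V : ℝ) ^ 2 *
        ((Fintype.card V : ℝ) / 2) ^ Fintype.card ι := by
    intro δ y
    have h2 := hNMAX V ι
    refine le_trans (le_of_eq ?_) h2
    rw [Finset.card_filter]
    push_cast
    have h3 : ∀ Z : ι → V × V, Zf ((δ, Sum.elim y (fun i => (Z i).1)) :
        (s → V) × (U ⊕ ι → V)) (fun i => (Z i).2) = Z := fun Z => rfl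
    simp only [h3]
    refine Finset.sum_congr ?_ fun Z _ => rfl
    ext Z
    simp
  refine (Finset.sum_le_sum fun δ _ => Finset.sum_le_sum fun y _ => h1 δ y).trans (le_of_eq ?_)
  rw [Finset.sum_const, Finset.sum_const, Finset.card_univ, Finset.card_univ, Fintype.card_fun,
    Fintype.card_fun, nsmul_eq_mul, nsmul_eq_mul]
  push_cast
  ring

end lam

end Pool.Agent.Q87.JQ
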