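import Pool.Agent.Q87.JQ.Sep

/-! # The contribution of a subspace which is not invariant -/

set_option autoImplicit false

namespace Pool.Agent.Q87.JQ

open Finset Module Q44.JQ
open Pool.Agent.Y703.CQ (prs)

open scoped Classical

section

variable {V : Type} [AddCommGroup V] [Module (ZMod 2) V]

theorem alt_symm {ω : V →ₗ[ZMod 2] V →ₗ[ZMod 2] ZMod 2} (h : ∀ x, ω x x = 0) (x y : V) :
    ω x y = ω y x := by
  have h1 := h (x + y)
  simp only [map_add, LinearMap.add_apply, h, zero_add, add_zero] at h1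
  have h2 : ∀ a b : ZMod 2, b + a = 0 → a = b := by decide
  exact h2 _ _ h1

/-- the polar form of `ω (z.2, z.1)` -/
noncomputable def pol (ω : V →ₗ[ZMod 2] V →ₗ[ZMod 2] ZMod 2) :
    LinearMap.BilinForm (ZMod 2) (V × V) :=
  (ω.comp (LinearMap.snd (ZMod 2) V V)).compl₂ (LinearMap.fst (ZMod 2) V V) +
    ((ω.comp (LinearMap.snd (ZMod 2) V V)).compl₂ (LinearMap.fst (ZMod 2) V V)).flip

theorem pol_apply (ω : V →ₗ[ZMod 2] V →ₗ[ZMod 2] ZMod 2) (x y : V × V) :
    pol ω x y = ω x.2 y.1 + ω y.2 x.1 := rfl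

theorem pol_nondeg {ω : V →ₗ[ZMod 2] V →ₗ[ZMod 2] ZMod 2} (h : ∀ x, ω x x = 0)
    (nd : ∀ x, (∀ y, ω x y = 0) → x = 0) (x : V × V) (hx : ∀ y, pol ω x y = 0) : x = 0 := by
  have h1 : x.2 = 0 := nd _ fun v => by
    have := hx (v, 0)
    rw [pol_apply] at this
    simpa using this
  have h2 : x.1 = 0 := nd _ fun v => by
    have := hx (0, v)
    rw [pol_apply] at this
    rw [alt_symm h]
    simpa using this
  exact Prod.ext h2 h1

theorem pol_symm (ω : V →ₗ[ZMod 2] V →ₗ[ZMod 2] ZMod 2) (x y : V × V) :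
    pol ω x y = pol ω y x := by
  rw [pol_apply, pol_apply, add_comm]

theorem pol_sing {ω : V →ₗ[ZMod 2] V →ₗ[ZMod 2] ZMod 2} {Λ : Submodule (ZMod 2) (V × V)}
    (h : ∀ z ∈ Λ, ω z.2 z.1 = 0) {x y : V × V} (hx : x ∈ Λ) (hy : y ∈ Λ) : pol ω x y = 0 := by
  have h1 := h (x + y) (Λ.add_mem hx hy)
  simp only [Prod.fst_add, Prod.snd_add, map_add, LinearMap.add_apply, h x hx, h y hy,
    zero_add, add_zero] at h1
  rw [pol_apply, add_comm]
  exact h1

/-- a singular subspace of maximal order is its own orthogonal -/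
theorem pol_orth [Finite V] {ω : V →ₗ[ZMod 2] V →ₗ[ZMod 2] ZMod 2} (ha : ∀ x, ω x x = 0)
    (nd : ∀ x, (∀ y, ω x y = 0) → x = 0) {Λ : Submodule (ZMod 2) (V × V)}
    (h : ∀ z ∈ Λ, ω z.2 z.1 = 0) (hc : Nat.card Λ = Nat.card V) {x : V × V}
    (hx : ∀ y ∈ Λ, pol ω y x = 0) : x ∈ Λ := by
  have hnd : (pol ω).Nondegenerate := by
    constructor
    · intro x hx
      exact pol_nondeg ha nd x hx
    · intro y hy
      exact pol_nondeg ha nd y fun z => by
        rw [pol_symm]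
        exact hy z
  have h1 : Λ ≤ (pol ω).orthogonal Λ := by
    intro y hy
    rw [LinearMap.BilinForm.mem_orthogonal_iff]
    intro z hz
    exact pol_sing h hz hy
  have h2 := LinearMap.BilinForm.finrank_orthogonal hnd Λ
  have h3 : finrank (ZMod 2) Λ = finrank (ZMod 2) V := by
    have e1 := Module.natCard_eq_pow_finrank (K := ZMod 2) (V := Λ)
    have e2 := Module.natCard_eq_pow_finrank (K := ZMod 2) (V := V)
    rw [e1, e2, Nat.card_zmod] at hc
    exact Nat.pow_right_injective (le_refl 2) hc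
  rw [Module.finrank_prod, h3, Nat.add_sub_cancel] at h2
  have h4 : Λ = (pol ω).orthogonal Λ := Submodule.eq_of_le_of_finrank_eq h1 (by rw [h2, h3])
  rw [h4, LinearMap.BilinForm.mem_orthogonal_iff]
  exact hx

/-- second difference -/
theorem sec_diff (B : V →ₗ[ZMod 2] ZMod 2) (ω : V →ₗ[ZMod 2] V →ₗ[ZMod 2] ZMod 2)
    (A : V →ₗ[ZMod 2] V) (a c p : V) (f : V × V → ZMod 2)
    (hf : ∀ l, f l = B (a + l.1) + ω (c + l.2) (p + A l.1)) (x μ μ' : V × V) :
    f x + f (x + μ) + f (x + μ') + f (x + μ + μ') = ω μ.2 (A μ'.1) + ω μ'.2 (A μ.1) := by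
  simp only [hf, Prod.fst_add, Prod.snd_add, map_add, LinearMap.add_apply]
  ring_nf
  reduce_mod_char

end

section main

variable {s V U ι : Type} [Fintype s] [AddCommGroup V] [Module (ZMod 2) V]
  [Fintype U] [Fintype ι] [LinearOrder ι]

omit [Fintype U] in
theorem ext_zero (i j : ι) : Pool.Agent.Y703.CQ.ext (0 : prs (univ : Finset ι) → ZMod 2) i j = 0 := by
  unfold Pool.Agent.Y703.CQ.ext
  split_ifs <;> rfl

/-- the rows of the large primes -/
theorem row_inr (D : Dj s V) (b : Bk s U ι) (δ : s → V) (y : U → V) (x : ι → V) (i : ι) :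
    rowL D (b.N D.s₀ 0) b.h (δ, Sum.elim y x) (Sum.inr i) =
      ∑ u, b.C i u • (y u + x i) + D.T (b.hJ i) (x i) + ∑ t, b.hJ i t • δ t +
        ∑ j, (if j < i then b.hJ i D.s₀ * b.hJ j D.s₀ else 0) • (x j + x i) := by
  have h1 : rowL D (b.N D.s₀ 0) b.h (δ, Sum.elim y x) (Sum.inr i) =
      ∑ q, b.N D.s₀ 0 (Sum.inr i) q • (Sum.elim y x q + Sum.elim y x (Sum.inr i)) +
        D.T (b.h (Sum.inr i)) (Sum.elim y x (Sum.inr i)) + ∑ t, b.h (Sum.inr i) t • δ t := rfl
  rw [h1, Fintype.sum_sum_type]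
  have h2 : ∀ j, b.N D.s₀ 0 (Sum.inr i) (Sum.inr j) =
      if j < i then b.hJ i D.s₀ * b.hJ j D.s₀ else 0 := by
    intro j
    have : b.N D.s₀ 0 (Sum.inr i) (Sum.inr j) = Pool.Agent.Y703.CQ.ext (0 : prs (univ : Finset ι) → ZMod 2) i j +
      (if j < i then b.hJ i D.s₀ * b.hJ j D.s₀ else 0) := rfl
    rw [this, ext_zero, zero_add]
  simp only [h2, Sum.elim_inl, Sum.elim_inr]
  have h3 : ∀ u, b.N D.s₀ 0 (Sum.inr i) (Sum.inl u) = b.C i u := fun u => rfl
  have h4 : b.h (Sum.inr i) = b.hJ i := rfl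
  simp only [h3, h4]
  abel

/-- sum over the elements and the vectors `W` as a sum over the families `Z` -/
theorem sum_split [Fintype V] (F : (s → V) × (U ⊕ ι → V) → (ι → V) → ℝ) :
    ∑ e, ∑ W, F e W = ∑ δ : s → V, ∑ y : U → V, ∑ Z : ι → V × V,
      F (δ, Sum.elim y (fun i => (Z i).1)) (fun i => (Z i).2) := by
  rw [Fintype.sum_prod_type]
  refine Finset.sum_congr rfl fun δ _ => ?_
  have h1 : ∑ x : U ⊕ ι → V, ∑ W, F (δ, x) W =
      ∑ q : (U → V) × (ι → V), ∑ W, F (δ, Sum.elim q.1 q.2) W := by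
    refine Fintype.sum_equiv (Equiv.sumArrowEquivProdArrow U ι V) _ _ fun x => ?_
    have : Sum.elim ((Equiv.sumArrowEquivProdArrow U ι V) x).1
        ((Equiv.sumArrowEquivProdArrow U ι V) x).2 = x := by
      funext q
      rcases q with q | q <;> rfl
    rw [this]
  rw [h1, Fintype.sum_prod_type]
  refine Finset.sum_congr rfl fun y _ => ?_
  rw [← Fintype.sum_prod_type' (fun (x : ι → V) (W : ι → V) => F (δ, Sum.elim y x) W)]
  refine Fintype.sum_equiv (Equiv.arrowProdEquivProdArrow ι (fun _ => V) (fun _ => V)).symm _ _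
    fun q => ?_
  rfl

end main

end Pool.Agent.Q87.JQ
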